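import Mathlib

set_option autoImplicit false

/-!
# Explicit reverse Kohler-Jobin inequality: definitions and statements of the parts
-/

open MeasureTheory Metric Set
open scoped Pointwise

namespace Pool.Agent.W250.RKJ

/-- volume of the unit ball of `ℝ^d` -/
noncomputable def w (d : ℕ) : ℝ := (volume (ball (0 : EuclideanSpace ℝ (Fin d)) 1)).toReal

/-- torsional rigidity of the unit ball, `|B| / (d (d + 2))` -/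
noncomputable def TB (d : ℕ) : ℝ := w d / ((d : ℝ) * ((d : ℝ) + 2))

/-- first Dirichlet eigenvalue, as the infimum of the Rayleigh quotients of the `C^1` functions
with compact support in `Ω` -/
noncomputable def lam {d : ℕ} (Ω : Set (EuclideanSpace ℝ (Fin d))) : ℝ :=
  sInf {r : ℝ | ∃ u : EuclideanSpace ℝ (Fin d) → ℝ, ContDiff ℝ 1 u ∧ HasCompactSupport u ∧
    tsupport u ⊆ Ω ∧ u ≠ 0 ∧ r = (∫ x, ‖fderiv ℝ u x‖ ^ 2) / (∫ x, u x ^ 2)}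

/-- torsional rigidity -/
noncomputable def tor {d : ℕ} (Ω : Set (EuclideanSpace ℝ (Fin d))) : ℝ :=
  sSup {r : ℝ | ∃ u : EuclideanSpace ℝ (Fin d) → ℝ, ContDiff ℝ 1 u ∧ HasCompactSupport u ∧
    tsupport u ⊆ Ω ∧ u ≠ 0 ∧ r = (∫ x, u x) ^ 2 / (∫ x, ‖fderiv ℝ u x‖ ^ 2)}

/-- distribution function -/
noncomputable def mu {d : ℕ} (u : EuclideanSpace ℝ (Fin d) → ℝ) (t : ℝ) : ℝ :=
  (volume {x | t < u x}).toReal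

/-- radius of the ball with the volume of `{u > t}` -/
noncomputable def rad {d : ℕ} (u : EuclideanSpace ℝ (Fin d) → ℝ) (t : ℝ) : ℝ :=
  (mu u t / w d) ^ ((d : ℝ)⁻¹)

/-- the entire function with `4 y F'' + 4 ν F' + F = 0`, `F(0) = 1` -/
noncomputable def F (ν y : ℝ) : ℝ :=
  ∑' k : ℕ, (-y / 4) ^ k / ((k.factorial : ℝ) * ∏ i ∈ Finset.range k, (ν + i))

/-- `z` is the first zero of `F ν` on `[0, ∞)` -/
def FirstZero (ν z : ℝ) : Prop :=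
  0 < z ∧ F ν z = 0 ∧ ∀ y, 0 ≤ y → y < z → 0 < F ν y

/-- the function `k(s, V)` -/
noncomputable def kk (φ : ℝ → ℝ) (d : ℕ) (z s V : ℝ) : ℝ :=
  2 * (∫ t in (0 : ℝ)..V, (deriv φ t) ^ 2) - z * (φ V) ^ 2 -
    (deriv φ V) ^ 2 * s ^ 2 / (d : ℝ) ^ 2

/-- the properties of the profile `φ` (and of the maximiser `W s` of `V ↦ k(s, V)`, `V ≥ 0`) -/
structure Prof (d : ℕ) (z l : ℝ) (φ W : ℝ → ℝ) : Prop where
  zpos : 0 < z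
  lpos : 0 < l
  c1 : ContDiff ℝ 1 φ
  zero : φ 0 = 0
  mono : Monotone (deriv φ)
  left : ∀ t, t ≤ 0 → deriv φ t = l
  le : ∀ t, deriv φ t ≤ z
  Wnn : ∀ s, 0 ≤ s → 0 ≤ W s
  sup : ∀ s, 0 ≤ s → ∀ V, 0 ≤ V → kk φ d z s V ≤ kk φ d z s (W s)
  W0 : ∀ s, 1 ≤ s → W s = 0
  cont : Continuous fun s => kk φ d z s (W s)
  int : ∫ s in (0 : ℝ)..1, kk φ d z s (W s) * s ^ (d - 1) = 0

/-- RJ-F: the series -/
def SF : Prop := ∀ ν : ℝ, 0 < ν → F ν 0 = 1 ∧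
  (∀ y, HasDerivAt (F ν) (-(F (ν + 1) y) / (4 * ν)) y) ∧
  ∀ y, F ν y = F (ν + 1) y - y / (4 * ν * (ν + 1)) * F (ν + 2) y

/-- RJ-POS: positivity of `F (ν + 1)` -/
def SPOS : Prop := ∀ ν z : ℝ, 0 < ν → 0 < z → (∀ y, 0 ≤ y → y < z → 0 < F ν y) →
  ∀ y, 0 ≤ y → y ≤ z → 0 < F (ν + 1) y

/-- RJ-POS: existence of the first zero -/
def SEX : Prop := ∀ ν : ℝ, 0 < ν → ∃ z, FirstZero ν z

/-- RJ-PROF: the profile; `F (d/2 + 1) z = -2 d F'(z)` -/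
def SPROF : Prop := ∀ d : ℕ, 1 ≤ d → ∀ z : ℝ, FirstZero ((d : ℝ) / 2) z →
  ∃ φ W : ℝ → ℝ, Prof d z (z * F ((d : ℝ) / 2 + 1) z) φ W

/-- RJ-BM: Brunn-Minkowski with a ball, in differential form -/
def SBM : Prop := ∀ d : ℕ, 1 ≤ d → ∀ A : Set (EuclideanSpace ℝ (Fin d)), IsOpen A →
  Bornology.IsBounded A → ∀ h : ℝ, 0 < h →
    h * (volume A).toReal ≤ ((volume A).toReal / w d) ^ ((d : ℝ)⁻¹) / d *
      ((volume (thickening h A)).toReal - (volume A).toReal)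

/-- RJ-ISO: coarea + isoperimetric inequality, weighted -/
def SISO : Prop := ∀ d : ℕ, 1 ≤ d → ∀ u : EuclideanSpace ℝ (Fin d) → ℝ, ContDiff ℝ 1 u →
  HasCompactSupport u → ∀ q : ℝ → ℝ, Continuous q → Antitone q → (∀ t, 0 ≤ q t) →
    ∫ t in Ioi (0 : ℝ), q t * mu u t ≤
      ∫ x in {x | 0 < u x}, q (u x) * (rad u (u x) / d) * ‖fderiv ℝ u x‖

/-- RJ-RANK -/
def SRANK : Prop := ∀ d : ℕ, 1 ≤ d → ∀ u : EuclideanSpace ℝ (Fin d) → ℝ, ContDiff ℝ 1 u →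
  HasCompactSupport u → mu u 0 ≤ w d → ∀ H : ℝ → ℝ, MonotoneOn H (Ici 0) →
  (∀ s, 0 ≤ s → 0 ≤ H s) →
    ∫ x in {x | 0 < u x}, H (rad u (u x)) ≤
      ∫ x in ball (0 : EuclideanSpace ℝ (Fin d)) 1, H ‖x‖

/-- RJ-POLAR: polar coordinates -/
def SPOLAR : Prop := ∀ d : ℕ, 1 ≤ d → ∀ H : ℝ → ℝ, Continuous H →
  ∫ x in ball (0 : EuclideanSpace ℝ (Fin d)) 1, H ‖x‖ =
    d * w d * ∫ s in (0 : ℝ)..1, H s * s ^ (d - 1)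

/-- RJ-SV: Saint-Venant inequality -/
def SSV : Prop := ∀ d : ℕ, 1 ≤ d → ∀ u : EuclideanSpace ℝ (Fin d) → ℝ, ContDiff ℝ 1 u →
  HasCompactSupport u → mu u 0 ≤ w d →
    2 * (∫ x, u x) - (∫ x, ‖fderiv ℝ u x‖ ^ 2) ≤ TB d

/-- RJ-MAIN: the main inequality -/
def SMAIN : Prop := ∀ (d : ℕ) (z l : ℝ) (φ W : ℝ → ℝ), 1 ≤ d → Prof d z l φ W →
  ∀ c : ℝ, 1 ≤ c → ∀ u : EuclideanSpace ℝ (Fin d) → ℝ, ContDiff ℝ 1 u →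
  HasCompactSupport u → mu u 0 ≤ w d →
    z ^ 2 * (2 * (∫ x, u x) - (∫ x, ‖fderiv ℝ u x‖ ^ 2)) +
      (∫ x, (deriv φ (c * u x)) ^ 2 * ‖fderiv ℝ u x‖ ^ 2) -
      z / c * (∫ x, (φ (c * u x)) ^ 2) ≤
    z ^ 2 * TB d - l ^ 2 * TB d * (1 - c ^ (-(((d : ℝ) + 2) / 2)))

/-- RJ-A: the reverse inequality between `lam` and `tor` -/
def SA : Prop := ∀ (d : ℕ) (z l : ℝ) (φ W : ℝ → ℝ), 1 ≤ d → Prof d z l φ W →
  ∀ Ω : Set (EuclideanSpace ℝ (Fin d)), IsOpen Ω → Ω.Nonempty →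
    volume Ω = volume (ball (0 : EuclideanSpace ℝ (Fin d)) 1) →
    tor Ω ≤ TB d ∧ 0 < tor Ω ∧
    ((z / l) ^ 2 * (1 - tor Ω / TB d) < 1 →
      lam Ω ≤ z * (1 - (z / l) ^ 2 * (1 - tor Ω / TB d)) ^ (-(2 / ((d : ℝ) + 2))))

/-- RJ-PIC: `z` is a lower bound for the first eigenvalue of the ball -/
def SPIC : Prop := ∀ (d : ℕ) (z : ℝ), 1 ≤ d → FirstZero ((d : ℝ) / 2) z →
  ∀ v : EuclideanSpace ℝ (Fin d) → ℝ, ContDiff ℝ 1 v → HasCompactSupport v →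
    tsupport v ⊆ ball (0 : EuclideanSpace ℝ (Fin d)) 1 →
    z * (∫ x, v x ^ 2) ≤ ∫ x, ‖fderiv ℝ v x‖ ^ 2

/-- RJ-TEST: test functions for the torsional rigidity of the ball -/
def STEST : Prop := ∀ d : ℕ, 1 ≤ d → ∀ ε : ℝ, 0 < ε →
  ∃ u : EuclideanSpace ℝ (Fin d) → ℝ, ContDiff ℝ 1 u ∧ HasCompactSupport u ∧
    tsupport u ⊆ ball (0 : EuclideanSpace ℝ (Fin d)) 1 ∧ u ≠ 0 ∧
    TB d - ε ≤ (∫ x, u x) ^ 2 / (∫ x, ‖fderiv ℝ u x‖ ^ 2)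

/-- RJ-SCALE -/
def SSCALE : Prop := ∀ (d : ℕ) (s : ℝ), 0 < s → ∀ Ω : Set (EuclideanSpace ℝ (Fin d)),
  lam (s • Ω) = lam Ω / s ^ 2 ∧ tor (s • Ω) = s ^ (d + 2) * tor Ω

/-- RJ-POLYA -/
def SPOLYA : Prop := ∀ d : ℕ, 1 ≤ d → ∀ Ω : Set (EuclideanSpace ℝ (Fin d)), IsOpen Ω →
  Ω.Nonempty → volume Ω < ⊤ → 0 ≤ lam Ω ∧ lam Ω * tor Ω ≤ (volume Ω).toReal

/-- RJ-THR: the threshold, one-variable calculus -/
def STHR : Prop := ∀ (d : ℕ) (z G y0 q L T : ℝ), 1 ≤ d → 0 < z → 1 ≤ G → 0 < y0 → y0 < 1 →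
  0 ≤ L → 0 < T → T ≤ TB d → 1 < q →
  (G * (1 - T / TB d) < 1 →
    L ≤ z * (1 - G * (1 - T / TB d)) ^ (-(2 / ((d : ℝ) + 2)))) →
  L * T ≤ w d →
  2 / ((d : ℝ) + 2) * (Real.log (1 - y0) / Real.log (1 - y0 / G)) ≤ q →
  1 + Real.log ((d : ℝ) * ((d : ℝ) + 2) / z) / (-Real.log (1 - y0 / G)) ≤ q →
  L * T ^ q ≤ z * TB d ^ q

/-- RJ-NUM2: the threshold `4` in the plane (`G = 1 / F(d/2+1, z)^2`) -/
def SNUM2 : Prop := ∀ z : ℝ, FirstZero 1 z →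
  2 / 4 * (Real.log (1 - 3 / 5) / Real.log (1 - 3 / 5 / (1 / F 2 z ^ 2))) ≤ 4 ∧
  1 + Real.log (8 / z) / (-Real.log (1 - 3 / 5 / (1 / F 2 z ^ 2))) ≤ 4

/-- RJ-NUM3: the threshold `15 / 2` in space -/
def SNUM3 : Prop := ∀ z : ℝ, FirstZero (3 / 2) z →
  2 / 5 * (Real.log (1 - 7 / 10) / Real.log (1 - 7 / 10 / (1 / F (5 / 2) z ^ 2))) ≤ 15 / 2 ∧
  1 + Real.log (15 / z) / (-Real.log (1 - 7 / 10 / (1 / F (5 / 2) z ^ 2))) ≤ 15 / 2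

end Pool.Agent.W250.RKJ
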