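import Pool.Agent.W250.RKJ.SV

set_option autoImplicit false

/-!
# The reverse inequality between `lam` and `tor`
-/

open MeasureTheory Metric Set

namespace Pool.Agent.W250.RKJ

variable {d : ℕ} {z l : ℝ} {φ W : ℝ → ℝ}

lemma lam_set_nonneg {Ω : Set (EuclideanSpace ℝ (Fin d))} :
    ∀ r ∈ {r : ℝ | ∃ u : EuclideanSpace ℝ (Fin d) → ℝ, ContDiff ℝ 1 u ∧ HasCompactSupport u ∧
    tsupport u ⊆ Ω ∧ u ≠ 0 ∧ r = (∫ x, ‖fderiv ℝ u x‖ ^ 2) / (∫ x, u x ^ 2)}, 0 ≤ r := by
  rintro r ⟨u, -, -, -, -, rfl⟩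
  exact div_nonneg (integral_nonneg fun x => sq_nonneg _) (integral_nonneg fun x => sq_nonneg _)

lemma lam_nonneg (Ω : Set (EuclideanSpace ℝ (Fin d))) : 0 ≤ lam Ω :=
  Real.sInf_nonneg lam_set_nonneg

lemma sq_int_pos {u : EuclideanSpace ℝ (Fin d) → ℝ} (hu : Continuous u)
    (hcs : HasCompactSupport u) (h0 : u ≠ 0) : 0 < ∫ x, u x ^ 2 := by
  obtain ⟨x0, hx0⟩ : ∃ x, u x ≠ 0 := by
    by_contra hcon
    push Not at hcon
    exact h0 (funext hcon)
  have hc2 : HasCompactSupport fun x => u x ^ 2 :=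
    hcs.comp_left (g := fun r : ℝ => r ^ 2) (by norm_num)
  exact (hu.pow 2).integral_pos_of_hasCompactSupport_nonneg_nonzero hc2
    (fun x => sq_nonneg _) (pow_ne_zero 2 hx0)

lemma lam_mul_le {Ω : Set (EuclideanSpace ℝ (Fin d))} {u : EuclideanSpace ℝ (Fin d) → ℝ}
    (hu : ContDiff ℝ 1 u) (hcs : HasCompactSupport u) (hs : tsupport u ⊆ Ω) :
    lam Ω * (∫ x, u x ^ 2) ≤ ∫ x, ‖fderiv ℝ u x‖ ^ 2 := by
  by_cases h0 : u = 0
  · subst h0
    simp
  · have hp := sq_int_pos hu.continuous hcs h0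
    have h1 : lam Ω ≤ (∫ x, ‖fderiv ℝ u x‖ ^ 2) / (∫ x, u x ^ 2) :=
      csInf_le ⟨0, fun r hr => lam_set_nonneg r hr⟩ ⟨u, hu, hcs, hs, h0, rfl⟩
    calc _ ≤ (∫ x, ‖fderiv ℝ u x‖ ^ 2) / (∫ x, u x ^ 2) * (∫ x, u x ^ 2) :=
          mul_le_mul_of_nonneg_right h1 hp.le
      _ = _ := div_mul_cancel₀ _ hp.ne'

lemma fderiv_smul' {u : EuclideanSpace ℝ (Fin d) → ℝ} (hu : ContDiff ℝ 1 u) (s : ℝ) :
    (∫ x, ‖fderiv ℝ (fun y => s * u y) x‖ ^ 2) = s ^ 2 * ∫ x, ‖fderiv ℝ u x‖ ^ 2 := by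
  rw [← integral_const_mul]
  refine integral_congr_ae (Filter.Eventually.of_forall fun x => ?_)
  have h1 : fderiv ℝ (fun y => s * u y) x = s • fderiv ℝ u x :=
    fderiv_const_mul (hu.differentiable one_ne_zero x) s
  simp only [h1, norm_smul, mul_pow, Real.norm_eq_abs, sq_abs]

lemma mu_le_of_tsupport {Ω : Set (EuclideanSpace ℝ (Fin d))}
    (hΩ : volume Ω = volume (ball (0 : EuclideanSpace ℝ (Fin d)) 1))
    {u : EuclideanSpace ℝ (Fin d) → ℝ} (hs : tsupport u ⊆ Ω) : mu u 0 ≤ w d := by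
  unfold mu w
  refine ENNReal.toReal_mono measure_ball_lt_top.ne ?_
  rw [← hΩ]
  refine measure_mono fun x hx => hs (subset_tsupport u ?_)
  have hx' : 0 < u x := hx
  exact hx'.ne'

lemma tsupport_mul' (c : ℝ) (u : EuclideanSpace ℝ (Fin d) → ℝ) :
    tsupport (fun y => c * u y) ⊆ tsupport u := by
  refine closure_mono fun x hx => ?_
  simp only [Function.mem_support] at hx ⊢
  exact right_ne_zero_of_mul hx

lemma tor_elem_le (hsv : SSV) (hd : 1 ≤ d) {Ω : Set (EuclideanSpace ℝ (Fin d))}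
    (hΩ : volume Ω = volume (ball (0 : EuclideanSpace ℝ (Fin d)) 1))
    {u : EuclideanSpace ℝ (Fin d) → ℝ} (hu : ContDiff ℝ 1 u) (hcs : HasCompactSupport u)
    (hs : tsupport u ⊆ Ω) :
    (∫ x, u x) ^ 2 / (∫ x, ‖fderiv ℝ u x‖ ^ 2) ≤ TB d := by
  set a := ∫ x, u x with ha
  set b := ∫ x, ‖fderiv ℝ u x‖ ^ 2 with hb
  have hb0 : 0 ≤ b := integral_nonneg fun x => sq_nonneg _
  rcases hb0.eq_or_lt with h0 | h0
  · rw [← h0, div_zero]
    exact (TB_pos hd).le
  · have h1 := hsv d hd (fun y => a / b * u y) (contDiff_const.mul hu) hcs.mul_left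
      (mu_le_of_tsupport hΩ ((tsupport_mul' _ _).trans hs))
    rw [fderiv_smul' hu, integral_const_mul, ← ha, ← hb] at h1
    calc a ^ 2 / b = 2 * (a / b * a) - (a / b) ^ 2 * b := by field_simp; ring
      _ ≤ _ := h1

lemma tor_bdd (hsv : SSV) (hd : 1 ≤ d) {Ω : Set (EuclideanSpace ℝ (Fin d))}
    (hΩ : volume Ω = volume (ball (0 : EuclideanSpace ℝ (Fin d)) 1)) :
    BddAbove {r : ℝ | ∃ u : EuclideanSpace ℝ (Fin d) → ℝ, ContDiff ℝ 1 u ∧ HasCompactSupport u ∧
      tsupport u ⊆ Ω ∧ u ≠ 0 ∧ r = (∫ x, u x) ^ 2 / (∫ x, ‖fderiv ℝ u x‖ ^ 2)} := by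
  refine ⟨TB d, ?_⟩
  rintro r ⟨u, hu, hcs, hs, -, rfl⟩
  exact tor_elem_le hsv hd hΩ hu hcs hs

lemma tor_le (hsv : SSV) (hd : 1 ≤ d) {Ω : Set (EuclideanSpace ℝ (Fin d))}
    (hΩ : volume Ω = volume (ball (0 : EuclideanSpace ℝ (Fin d)) 1)) : tor Ω ≤ TB d := by
  refine Real.sSup_le ?_ (TB_pos hd).le
  rintro r ⟨u, hu, hcs, hs, -, rfl⟩
  exact tor_elem_le hsv hd hΩ hu hcs hs

/-- a test function with positive quotient -/
lemma exists_test {Ω : Set (EuclideanSpace ℝ (Fin d))} (ho : IsOpen Ω) (hne : Ω.Nonempty) :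
    ∃ u : EuclideanSpace ℝ (Fin d) → ℝ, ContDiff ℝ 1 u ∧ HasCompactSupport u ∧
      tsupport u ⊆ Ω ∧ u ≠ 0 ∧ 0 < ∫ x, u x := by
  obtain ⟨x0, hx0⟩ := hne
  obtain ⟨ε, hε, hb⟩ := Metric.isOpen_iff.1 ho x0 hx0
  let f : ContDiffBump x0 := ⟨ε / 4, ε / 2, by positivity, by linarith⟩
  have hs : tsupport f ⊆ Ω := by
    rw [f.tsupport_eq]
    exact (closedBall_subset_ball (by change ε / 2 < ε; linarith)).trans hb
  have h1 : f x0 = 1 := f.one_of_mem_closedBall (mem_closedBall_self (by positivity))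
  refine ⟨f, f.contDiff, f.hasCompactSupport, hs, ?_, ?_⟩
  · intro h
    rw [h] at h1
    exact zero_ne_one h1
  · exact f.continuous.integral_pos_of_hasCompactSupport_nonneg_nonzero f.hasCompactSupport
      (fun x => f.nonneg) (by rw [h1]; exact one_ne_zero)

lemma grad_int_pos (hsv : SSV) (hd : 1 ≤ d) {Ω : Set (EuclideanSpace ℝ (Fin d))}
    (hΩ : volume Ω = volume (ball (0 : EuclideanSpace ℝ (Fin d)) 1))
    {u : EuclideanSpace ℝ (Fin d) → ℝ} (hu : ContDiff ℝ 1 u) (hcs : HasCompactSupport u)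
    (hs : tsupport u ⊆ Ω) (hi : ∫ x, u x ≠ 0) : 0 < ∫ x, ‖fderiv ℝ u x‖ ^ 2 := by
  set a := ∫ x, u x with ha
  set b := ∫ x, ‖fderiv ℝ u x‖ ^ 2 with hb
  have hb0 : 0 ≤ b := integral_nonneg fun x => sq_nonneg _
  rcases hb0.eq_or_lt with h0 | h0
  · exfalso
    have h1 := hsv d hd (fun y => (TB d / a) * u y) (contDiff_const.mul hu) hcs.mul_left
      (mu_le_of_tsupport hΩ ((tsupport_mul' _ _).trans hs))
    rw [fderiv_smul' hu, integral_const_mul, ← ha, ← hb, ← h0, mul_zero, sub_zero,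
      div_mul_cancel₀ _ hi] at h1
    linarith [TB_pos hd]
  · exact h0

lemma tor_pos (hsv : SSV) (hd : 1 ≤ d) {Ω : Set (EuclideanSpace ℝ (Fin d))} (ho : IsOpen Ω)
    (hne : Ω.Nonempty) (hΩ : volume Ω = volume (ball (0 : EuclideanSpace ℝ (Fin d)) 1)) :
    0 < tor Ω := by
  obtain ⟨u, hu, hcs, hs, h0, hi⟩ := exists_test ho hne
  have hg := grad_int_pos hsv hd hΩ hu hcs hs hi.ne'
  have h1 : (∫ x, u x) ^ 2 / (∫ x, ‖fderiv ℝ u x‖ ^ 2) ≤ tor Ω :=
    le_csSup (tor_bdd hsv hd hΩ) ⟨u, hu, hcs, hs, h0, rfl⟩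
  exact lt_of_lt_of_le (by positivity) h1

/-- `(∫ v)^2 ≤ w ∫ v^2` -/
lemma cs {Ω : Set (EuclideanSpace ℝ (Fin d))}
    (hΩ : volume Ω = volume (ball (0 : EuclideanSpace ℝ (Fin d)) 1))
    {v : EuclideanSpace ℝ (Fin d) → ℝ} (hv : Continuous v) (hcs : HasCompactSupport v)
    (hs : tsupport v ⊆ Ω) : (∫ x, v x) ^ 2 ≤ w d * ∫ x, v x ^ 2 := by
  have hw := w_pos d
  have hvol : volume.real Ω = w d := by rw [measureReal_def, hΩ]; rfl
  have hfin : volume Ω ≠ ⊤ := by rw [hΩ]; exact measure_ball_lt_top.ne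
  have I1 : Integrable v := hv.integrable_of_hasCompactSupport hcs
  have hc2 : HasCompactSupport fun x => v x ^ 2 :=
    hcs.comp_left (g := fun r : ℝ => r ^ 2) (by norm_num)
  have hv2 : Continuous fun x => v x ^ 2 := hv.pow 2
  have I2 : Integrable fun x => v x ^ 2 := hv2.integrable_of_hasCompactSupport hc2
  have e1 : ∫ x in Ω, v x = ∫ x, v x := by
    refine setIntegral_eq_integral_of_forall_compl_eq_zero fun x hx => ?_
    by_contra hne
    exact hx (hs (subset_tsupport v hne))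
  have e2 : ∫ x in Ω, v x ^ 2 = ∫ x, v x ^ 2 := by
    refine setIntegral_eq_integral_of_forall_compl_eq_zero fun x hx => ?_
    by_contra hne
    exact hx (hs (subset_tsupport v fun h => hne (by rw [h]; norm_num)))
  set s := (∫ x, v x) / w d with hsdef
  have h0 : 0 ≤ ∫ x in Ω, (v x ^ 2 - 2 * s * v x + s ^ 2) := by
    refine integral_nonneg fun x => ?_
    have : v x ^ 2 - 2 * s * v x + s ^ 2 = (v x - s) ^ 2 := by ring
    simp only [Pi.zero_apply]
    rw [this]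
    exact sq_nonneg _
  have Ic : IntegrableOn (fun _ : EuclideanSpace ℝ (Fin d) => s ^ 2) Ω :=
    integrableOn_const hfin
  have Ia : IntegrableOn (fun x => v x ^ 2 - 2 * s * v x) Ω :=
    (I2.sub (I1.const_mul _)).integrableOn
  rw [integral_add Ia Ic, integral_sub I2.integrableOn (I1.integrableOn.const_mul _),
    integral_const_mul, e1, e2, setIntegral_const, hvol, smul_eq_mul] at h0
  have h3 : (∫ x, v x) = s * w d := by rw [hsdef]; field_simp
  rw [h3] at h0 ⊢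
  nlinarith [mul_nonneg hw.le h0]

lemma phi_sq (h : Prof d z l φ W) (t : ℝ) : l ^ 2 * t ^ 2 ≤ (φ t) ^ 2 := by
  have hd : Differentiable ℝ φ := h.c1.differentiable one_ne_zero
  have hg : Monotone fun t => φ t - l * t := by
    refine monotone_of_deriv_nonneg (hd.sub (differentiable_id.const_mul l)) fun t => ?_
    have h1 : HasDerivAt (fun t => φ t - l * t) (deriv φ t - l * 1) t :=
      (hd t).hasDerivAt.sub ((hasDerivAt_id t).const_mul l)
    rw [h1.deriv]
    linarith [h.lge t]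
  rcases le_total 0 t with ht | ht
  · have h1 := hg ht
    simp only [h.zero, mul_zero, sub_zero] at h1
    have h2 : l * t ≤ φ t := by linarith
    have h3 : 0 ≤ l * t := mul_nonneg h.lpos.le ht
    nlinarith
  · have h1 : φ t = l * t := by
      have h2 : ∀ s ∈ Icc t 0, φ s - l * s = φ t - l * t := by
        refine constant_of_has_deriv_right_zero
          ((hd.continuous.sub (continuous_const.mul continuous_id)).continuousOn) ?_
        intro s hs
        have h3 : HasDerivAt (fun t => φ t - l * t) (deriv φ s - l * 1) s :=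
          (hd s).hasDerivAt.sub ((hasDerivAt_id s).const_mul l)
        rw [h.left s hs.2.le, mul_one, sub_self] at h3
        exact h3.hasDerivWithinAt
      have h4 := h2 0 ⟨ht, le_rfl⟩
      rw [h.zero, mul_zero, sub_zero] at h4
      linarith
    rw [h1]
    exact (mul_pow l t 2).ge

/-- the heart of the argument: comparison for one normalised test function -/
lemma compare (hmain : SMAIN) (h : Prof d z l φ W) (hd : 1 ≤ d)
    {Ω : Set (EuclideanSpace ℝ (Fin d))}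
    (hΩ : volume Ω = volume (ball (0 : EuclideanSpace ℝ (Fin d)) 1)) {c : ℝ} (hc : 1 ≤ c)
    {v : EuclideanSpace ℝ (Fin d) → ℝ} (hv : ContDiff ℝ 1 v) (hcs : HasCompactSupport v)
    (hs : tsupport v ⊆ Ω) :
    (lam Ω - z * c) * (∫ x, (φ (c * v x)) ^ 2) ≤ c ^ 2 * (z ^ 2 * TB d -
      l ^ 2 * TB d * (1 - c ^ (-(((d : ℝ) + 2) / 2))) -
      z ^ 2 * (2 * (∫ x, v x) - (∫ x, ‖fderiv ℝ v x‖ ^ 2))) := by
  have hc0 : 0 < c := by linarith
  have h1 := hmain d z l φ W hd h c hc v hv hcs (mu_le_of_tsupport hΩ hs)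
  have hφd : Differentiable ℝ φ := h.c1.differentiable one_ne_zero
  have hvd : Differentiable ℝ v := hv.differentiable one_ne_zero
  have hcomp : ContDiff ℝ 1 fun x => φ (c * v x) := h.c1.comp (contDiff_const.mul hv)
  have hcs' : HasCompactSupport fun x => φ (c * v x) :=
    hcs.comp_left (g := fun r : ℝ => φ (c * r)) (by simp [h.zero])
  have hs' : tsupport (fun x => φ (c * v x)) ⊆ Ω := by
    refine (closure_mono fun x hx => ?_).trans hs
    simp only [Function.mem_support] at hx ⊢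
    intro h0
    exact hx (by rw [h0, mul_zero, h.zero])
  have h2 := lam_mul_le hcomp hcs' hs'
  have h3 : (∫ x, ‖fderiv ℝ (fun x => φ (c * v x)) x‖ ^ 2) =
      c ^ 2 * ∫ x, (deriv φ (c * v x)) ^ 2 * ‖fderiv ℝ v x‖ ^ 2 := by
    rw [← integral_const_mul]
    refine integral_congr_ae (Filter.Eventually.of_forall fun x => ?_)
    have e1 : HasFDerivAt (fun y => c * v y) (c • fderiv ℝ v x) x :=
      (hvd x).hasFDerivAt.const_mul c
    have e2 : HasFDerivAt (fun y => φ (c * v y)) (deriv φ (c * v x) • (c • fderiv ℝ v x)) x :=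
      (hφd (c * v x)).hasDerivAt.comp_hasFDerivAt x e1
    simp only
    rw [e2.fderiv, norm_smul, norm_smul, mul_pow, mul_pow, Real.norm_eq_abs, Real.norm_eq_abs,
      sq_abs, sq_abs]
    ring
  rw [h3] at h2
  have h4 : z / c * (∫ x, (φ (c * v x)) ^ 2) * c ^ 2 = z * c * ∫ x, (φ (c * v x)) ^ 2 := by
    field_simp
  nlinarith [mul_le_mul_of_nonneg_left h1 (sq_nonneg c)]

theorem sA (hsv : SSV) (hmain : SMAIN) : SA := by
  intro d z l φ W hd h Ω ho hne hΩ
  refine ⟨tor_le hsv hd hΩ, tor_pos hsv hd ho hne hΩ, fun hG => ?_⟩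
  have hT := tor_le hsv hd hΩ
  have hT0 := tor_pos hsv hd ho hne hΩ
  have hTB := TB_pos hd
  have hz := h.zpos
  have hl := h.lpos
  have hd0 : (0 : ℝ) < d := by exact_mod_cast hd
  set x := 1 - tor Ω / TB d with hx
  have hx0 : 0 ≤ x := by
    rw [hx, sub_nonneg, div_le_one hTB]
    exact hT
  set y := 1 - (z / l) ^ 2 * x with hy
  have hy0 : 0 < y := by linarith
  have hy1 : y ≤ 1 := by
    have : 0 ≤ (z / l) ^ 2 * x := by positivity
    linarith
  set c := y ^ (-(2 / ((d : ℝ) + 2))) with hcdef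
  have hc1 : 1 ≤ c := Real.one_le_rpow_of_pos_of_le_one_of_nonpos hy0 hy1
    (neg_nonpos.2 (by positivity))
  have hc0 : 0 < c := by linarith
  have hcy : c ^ (-(((d : ℝ) + 2) / 2)) = y := by
    rw [hcdef, ← Real.rpow_mul hy0.le]
    have : -(2 / ((d : ℝ) + 2)) * -(((d : ℝ) + 2) / 2) = 1 := by field_simp
    rw [this, Real.rpow_one]
  have hval : z ^ 2 * TB d - l ^ 2 * TB d * (1 - c ^ (-(((d : ℝ) + 2) / 2))) =
      z ^ 2 * tor Ω := by
    rw [hcy, hy, hx]
    field_simp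
    ring
  by_contra hcon
  rw [not_le] at hcon
  -- choose a good test function
  have hpos : 0 < lam Ω - z * c := by linarith
  set K := (lam Ω - z * c) * (l ^ 2 * (tor Ω / 2) ^ 2 / w d) with hK
  have hw := w_pos d
  have hK0 : 0 < K := by positivity
  set ε := min (tor Ω / 2) (K / (2 * z ^ 2)) with hε
  have hε0 : 0 < ε := lt_min (by positivity) (by positivity)
  obtain ⟨r, ⟨u, hu, hcs, hs, hu0, hr⟩, hr2⟩ := exists_lt_of_lt_csSup (b := tor Ω - ε)
    (by
      obtain ⟨u, hu, hcs, hs, h0, _⟩ := exists_test ho hne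
      exact ⟨_, u, hu, hcs, hs, h0, rfl⟩)
    (show tor Ω - ε < tor Ω by linarith)
  set a := ∫ x, u x with ha
  set b := ∫ x, ‖fderiv ℝ u x‖ ^ 2 with hb
  have hr3 : tor Ω / 2 < r := by
    have := min_le_left (tor Ω / 2) (K / (2 * z ^ 2))
    linarith
  have hr0 : 0 < r := by linarith
  have ha0 : a ≠ 0 := by
    intro h0
    rw [hr, h0] at hr0
    simp at hr0
  have hb0 : 0 < b := grad_int_pos hsv hd hΩ hu hcs hs ha0
  have hv : ContDiff ℝ 1 fun y => a / b * u y := contDiff_const.mul hu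
  have hvs : tsupport (fun y => a / b * u y) ⊆ Ω := (tsupport_mul' _ _).trans hs
  have hvc : HasCompactSupport fun y => a / b * u y := hcs.mul_left
  have h1 := compare hmain h hd hΩ hc1 hv hvc hvs
  have i1 : ∫ x, a / b * u x = r := by
    rw [integral_const_mul, ← ha, hr]
    ring
  have i2 : (∫ x, ‖fderiv ℝ (fun y => a / b * u y) x‖ ^ 2) = r := by
    rw [fderiv_smul' hu, ← hb, hr]
    field_simp
  rw [hval, i1, i2] at h1
  -- lower bound for the integral of φ^2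
  have hN : c ^ 2 * (l ^ 2 * (tor Ω / 2) ^ 2 / w d) ≤ ∫ x, (φ (c * (a / b * u x))) ^ 2 := by
    have hc2 := cs hΩ hv.continuous hvc hvs
    rw [i1] at hc2
    have hsq : Integrable fun x => (a / b * u x) ^ 2 :=
      Continuous.integrable_of_hasCompactSupport (by have := hv.continuous; fun_prop)
        (hvc.comp_left (g := fun r : ℝ => r ^ 2) (by norm_num))
    have hφi : Integrable fun x => (φ (c * (a / b * u x))) ^ 2 := by
      refine Continuous.integrable_of_hasCompactSupport ?_ ?_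
      · exact (h.c1.continuous.comp (continuous_const.mul hv.continuous)).pow 2
      · exact hvc.comp_left (g := fun r : ℝ => (φ (c * r)) ^ 2) (by simp [h.zero])
    have h3 : ∫ x, l ^ 2 * (c ^ 2 * (a / b * u x) ^ 2) ≤ ∫ x, (φ (c * (a / b * u x))) ^ 2 := by
      refine integral_mono ((hsq.const_mul _).const_mul _) hφi fun x => ?_
      have := phi_sq h (c * (a / b * u x))
      simp only
      rw [mul_pow] at this
      exact this
    rw [integral_const_mul, integral_const_mul] at h3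
    refine le_trans ?_ h3
    have h4 : (tor Ω / 2) ^ 2 ≤ r ^ 2 := pow_le_pow_left₀ (by positivity) hr3.le 2
    have h5 : r ^ 2 / w d ≤ ∫ x, (a / b * u x) ^ 2 := by
      rw [div_le_iff₀ hw]
      linarith
    calc c ^ 2 * (l ^ 2 * (tor Ω / 2) ^ 2 / w d) = l ^ 2 * (c ^ 2 * ((tor Ω / 2) ^ 2 / w d)) := by
          ring
      _ ≤ l ^ 2 * (c ^ 2 * (r ^ 2 / w d)) := by gcongr
      _ ≤ _ := by gcongr
  have h6 := mul_le_mul_of_nonneg_left hN hpos.le
  have h7 : c ^ 2 * K ≤ c ^ 2 * (z ^ 2 * tor Ω - z ^ 2 * (2 * r - r)) := by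
    refine le_trans (le_of_eq ?_) (h6.trans h1)
    rw [hK]
    ring
  have h8 : K ≤ z ^ 2 * tor Ω - z ^ 2 * (2 * r - r) := le_of_mul_le_mul_left h7 (by positivity)
  have h9 : ε ≤ K / (2 * z ^ 2) := min_le_right _ _
  have h10 : z ^ 2 * ε ≤ K / 2 := by
    calc z ^ 2 * ε ≤ z ^ 2 * (K / (2 * z ^ 2)) := by gcongr
      _ = K / 2 := by field_simp
  nlinarith [mul_pos (pow_pos hz 2) hε0]

end Pool.Agent.W250.RKJ
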