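import Pool.Agent.W250.RKJ.Layer

set_option autoImplicit false

/-!
# The envelope `Gc(ρ)` and its integral over the ball
-/

open MeasureTheory Metric Set

namespace Pool.Agent.W250.RKJ

variable {d : ℕ} {z l : ℝ} {φ W : ℝ → ℝ}

lemma Prof.contd (h : Prof d z l φ W) : Continuous (deriv φ) := h.c1.continuous_deriv le_rfl

lemma Prof.lge (h : Prof d z l φ W) (t : ℝ) : l ≤ deriv φ t := by
  rcases le_total t 0 with ht | ht
  · exact (h.left t ht).ge
  · rw [← h.left 0 le_rfl]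
    exact h.mono ht

lemma Prof.lez (h : Prof d z l φ W) : l ≤ z := (h.lge 0).trans (h.le 0)

/-- the envelope -/
noncomputable def GG (d : ℕ) (z c : ℝ) (φ W : ℝ → ℝ) (ρ : ℝ) : ℝ :=
  z ^ 2 * ρ ^ 2 / (d : ℝ) ^ 2 + 1 / c * kk φ d z (Real.sqrt c * ρ) (W (Real.sqrt c * ρ))

/-- the bracket -/
noncomputable def br (d : ℕ) (z c : ℝ) (φ : ℝ → ℝ) (ρ V : ℝ) : ℝ :=
  (2 * (∫ t in (0 : ℝ)..V, (deriv φ t) ^ 2) - z * (φ V) ^ 2) / c +
    (z ^ 2 - (deriv φ V) ^ 2) * (ρ / d) ^ 2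

lemma br_eq (c : ℝ) (hc : 0 < c) (ρ V : ℝ) :
    br d z c φ ρ V = z ^ 2 * ρ ^ 2 / (d : ℝ) ^ 2 + 1 / c * kk φ d z (Real.sqrt c * ρ) V := by
  unfold br kk
  rw [mul_pow, Real.sq_sqrt hc.le, div_pow]
  field_simp
  ring

lemma br_le_GG (h : Prof d z l φ W) {c : ℝ} (hc : 0 < c) {ρ V : ℝ} (hρ : 0 ≤ ρ) (hV : 0 ≤ V) :
    br d z c φ ρ V ≤ GG d z c φ W ρ := by
  rw [br_eq c hc, GG]
  have h1 := h.sup (Real.sqrt c * ρ) (by positivity) V hV
  have h2 : (0 : ℝ) ≤ 1 / c := by positivity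
  nlinarith [mul_le_mul_of_nonneg_left h1 h2]

lemma GG_eq_br {c : ℝ} (hc : 0 < c) (ρ : ℝ) :
    GG d z c φ W ρ = br d z c φ ρ (W (Real.sqrt c * ρ)) := by
  rw [br_eq c hc, GG]

lemma br_mono (h : Prof d z l φ W) (c : ℝ) {ρ ρ' V : ℝ} (hρ : 0 ≤ ρ) (hρ' : ρ ≤ ρ') :
    br d z c φ ρ V ≤ br d z c φ ρ' V := by
  unfold br
  have h1 : 0 ≤ z ^ 2 - (deriv φ V) ^ 2 := by
    have h2 := h.lge V
    have h3 := h.le V
    have h4 := h.lpos
    nlinarith
  have h5 : (ρ / d) ^ 2 ≤ (ρ' / d) ^ 2 := by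
    refine pow_le_pow_left₀ (by positivity) ?_ 2
    exact div_le_div_of_nonneg_right hρ' (by positivity)
  have := mul_le_mul_of_nonneg_left h5 h1
  linarith

lemma GG_mono (h : Prof d z l φ W) {c : ℝ} (hc : 0 < c) :
    MonotoneOn (GG d z c φ W) (Ici 0) := by
  intro ρ hρ ρ' hρ' hle
  have hρ0 : 0 ≤ ρ := hρ
  have hρ0' : 0 ≤ ρ' := hρ'
  rw [GG_eq_br hc ρ]
  exact (br_mono h c hρ0 hle).trans (br_le_GG h hc hρ0' (h.Wnn _ (by positivity)))

lemma GG_nonneg (h : Prof d z l φ W) {c : ℝ} (hc : 0 < c) {ρ : ℝ} (hρ : 0 ≤ ρ) :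
    0 ≤ GG d z c φ W ρ := by
  refine le_trans ?_ (br_le_GG h hc hρ le_rfl)
  unfold br
  have h0 : φ 0 = 0 := h.zero
  have h1 : deriv φ 0 = l := h.left 0 le_rfl
  have h2 := h.lez
  have h3 := h.lpos
  rw [h0, h1, intervalIntegral.integral_same]
  have h4 : 0 ≤ z ^ 2 - l ^ 2 := by nlinarith
  have : 0 ≤ (z ^ 2 - l ^ 2) * (ρ / d) ^ 2 := by positivity
  simpa using this

lemma GG_cont (h : Prof d z l φ W) (c : ℝ) : Continuous (GG d z c φ W) := by
  unfold GG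
  have h1 : Continuous fun ρ : ℝ => kk φ d z (Real.sqrt c * ρ) (W (Real.sqrt c * ρ)) :=
    h.cont.comp (continuous_const.mul continuous_id)
  exact (by fun_prop : Continuous fun ρ : ℝ => z ^ 2 * ρ ^ 2 / (d : ℝ) ^ 2).add
    (continuous_const.mul h1)

/-- the integral of `κ` over `[0, b]`, `b ≥ 1` -/
lemma int_kap (h : Prof d z l φ W) (hd : 1 ≤ d) {b : ℝ} (hb : 1 ≤ b) :
    ∫ s in (0 : ℝ)..b, kk φ d z s (W s) * s ^ (d - 1) =
      -(l ^ 2 / (d : ℝ) ^ 2) * ((b ^ (d + 2) - 1) / ((d : ℝ) + 2)) := by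
  have hcont : Continuous fun s : ℝ => kk φ d z s (W s) * s ^ (d - 1) :=
    h.cont.mul (continuous_pow _)
  rw [← intervalIntegral.integral_add_adjacent_intervals (hcont.intervalIntegrable 0 1)
    (hcont.intervalIntegrable 1 b), h.int, zero_add]
  have h1 : ∫ s in (1 : ℝ)..b, kk φ d z s (W s) * s ^ (d - 1) =
      ∫ s in (1 : ℝ)..b, -(l ^ 2 / (d : ℝ) ^ 2) * s ^ (d + 1) := by
    refine intervalIntegral.integral_congr fun s hs => ?_
    rw [uIcc_of_le hb] at hs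
    rw [h.W0 s hs.1]
    unfold kk
    rw [h.zero, h.left 0 le_rfl, intervalIntegral.integral_same]
    have h2 : s ^ (d + 1) = s ^ 2 * s ^ (d - 1) := by
      rw [← pow_add]
      congr 1
      omega
    rw [h2]
    ring
  rw [h1, intervalIntegral.integral_const_mul, integral_pow]
  push_cast
  rw [one_pow]
  ring

/-- the integral of the envelope over the unit ball -/
lemma int_GG (hpol : SPOLAR) (h : Prof d z l φ W) (hd : 1 ≤ d) {c : ℝ} (hc : 1 ≤ c) :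
    ∫ x in ball (0 : EuclideanSpace ℝ (Fin d)) 1, GG d z c φ W ‖x‖ =
      z ^ 2 * TB d - l ^ 2 * TB d * (1 - c ^ (-(((d : ℝ) + 2) / 2))) := by
  have hc0 : 0 < c := by linarith
  have hd0 : (0 : ℝ) < d := by exact_mod_cast hd
  rw [hpol d hd _ (GG_cont h c)]
  set b := Real.sqrt c with hb
  have hb1 : 1 ≤ b := by
    rw [hb]
    exact Real.one_le_sqrt.2 hc
  have hb0 : 0 < b := by linarith
  have hbc : b ^ 2 = c := Real.sq_sqrt hc0.le
  have hint : ∫ s in (0 : ℝ)..1, GG d z c φ W s * s ^ (d - 1) =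
      z ^ 2 / (d : ℝ) ^ 2 * (1 / ((d : ℝ) + 2)) +
        1 / c * ((b ^ d)⁻¹ * (-(l ^ 2 / (d : ℝ) ^ 2) * ((b ^ (d + 2) - 1) / ((d : ℝ) + 2)))) := by
    have e1 : ∀ s : ℝ, GG d z c φ W s * s ^ (d - 1) = z ^ 2 / (d : ℝ) ^ 2 * s ^ (d + 1) +
        1 / c * ((b ^ (d - 1))⁻¹ * (kk φ d z (b * s) (W (b * s)) * (b * s) ^ (d - 1))) := by
      intro s
      unfold GG
      rw [mul_pow, ← hb]
      have h2 : s ^ (d + 1) = s ^ 2 * s ^ (d - 1) := by
        rw [← pow_add]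
        congr 1
        omega
      have h3 : (b ^ (d - 1)) ≠ 0 := by positivity
      rw [h2]
      field_simp
    simp_rw [e1]
    have hk : Continuous fun s : ℝ => kk φ d z s (W s) * s ^ (d - 1) :=
      h.cont.mul (continuous_pow _)
    have hk2 : Continuous fun s : ℝ => kk φ d z (b * s) (W (b * s)) * (b * s) ^ (d - 1) :=
      hk.comp (continuous_const.mul continuous_id)
    have i1 : IntervalIntegrable (fun s : ℝ => z ^ 2 / (d : ℝ) ^ 2 * s ^ (d + 1)) volume 0 1 :=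
      (by fun_prop : Continuous fun s : ℝ => z ^ 2 / (d : ℝ) ^ 2 * s ^ (d + 1)).intervalIntegrable
        _ _
    have i2 : IntervalIntegrable (fun s : ℝ => 1 / c * ((b ^ (d - 1))⁻¹ *
        (kk φ d z (b * s) (W (b * s)) * (b * s) ^ (d - 1)))) volume 0 1 :=
      (continuous_const.mul (continuous_const.mul hk2)).intervalIntegrable _ _
    rw [intervalIntegral.integral_add i1 i2,
      intervalIntegral.integral_const_mul, intervalIntegral.integral_const_mul,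
      intervalIntegral.integral_const_mul, integral_pow]
    have e2 := intervalIntegral.integral_comp_mul_left (a := 0) (b := 1)
      (fun s : ℝ => kk φ d z s (W s) * s ^ (d - 1)) hb0.ne'
    rw [e2, mul_zero, mul_one, int_kap h hd hb1, smul_eq_mul]
    have e3 : (b ^ d) = b ^ (d - 1) * b := by
      rw [← pow_succ]
      congr 1
      omega
    rw [e3, mul_inv]
    push_cast
    have : (0 : ℝ) ^ (d + 1 + 1) = 0 := zero_pow (by omega)
    rw [this]
    ring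
  rw [hint]
  have hpow : c ^ (-(((d : ℝ) + 2) / 2)) = (b ^ (d + 2))⁻¹ := by
    rw [Real.rpow_neg hc0.le]
    congr 1
    rw [hb, Real.sqrt_eq_rpow, ← Real.rpow_natCast, ← Real.rpow_mul hc0.le]
    congr 1
    push_cast
    ring
  rw [hpow, TB]
  have hb2 : b ^ (d + 2) = b ^ d * b ^ 2 := pow_add b d 2
  rw [hb2, hbc]
  have hbd : b ^ d ≠ 0 := by positivity
  field_simp
  ring

end Pool.Agent.W250.RKJ
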