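import Pool.Agent.W250.RKJ.A

set_option autoImplicit false

/-!
# Assembly
-/

open MeasureTheory Metric Set
open scoped Pointwise

namespace Pool.Agent.W250.RKJ

variable {d : ℕ}

/-- the scale invariant functional `F_q` -/
noncomputable def Fq (q : ℝ) (Ω : Set (EuclideanSpace ℝ (Fin d))) : ℝ :=
  lam Ω * (tor Ω) ^ q / ((volume Ω).toReal) ^ ((q * ((d : ℝ) + 2) - 2) / (d : ℝ))

lemma lam_ball_ge (hpic : SPIC) (hd : 1 ≤ d) {z : ℝ} (hz : FirstZero ((d : ℝ) / 2) z) :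
    z ≤ lam (ball (0 : EuclideanSpace ℝ (Fin d)) 1) := by
  have hne : (ball (0 : EuclideanSpace ℝ (Fin d)) 1).Nonempty := ⟨0, mem_ball_self one_pos⟩
  refine le_csInf ?_ ?_
  · obtain ⟨u, hu, hcs, hs, h0, _⟩ := exists_test isOpen_ball hne
    exact ⟨_, u, hu, hcs, hs, h0, rfl⟩
  · rintro r ⟨u, hu, hcs, hs, h0, rfl⟩
    rw [le_div_iff₀ (sq_int_pos hu.continuous hcs h0)]
    exact hpic d z hd hz u hu hcs hs

lemma tor_ball_ge (hsv : SSV) (htest : STEST) (hd : 1 ≤ d) :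
    TB d ≤ tor (ball (0 : EuclideanSpace ℝ (Fin d)) 1) := by
  refine le_of_forall_pos_le_add fun ε hε => ?_
  obtain ⟨u, hu, hcs, hs, h0, h1⟩ := htest d hd ε hε
  have h2 := le_csSup (tor_bdd hsv hd rfl) ⟨u, hu, hcs, hs, h0, rfl⟩
  change _ ≤ tor (ball (0 : EuclideanSpace ℝ (Fin d)) 1) at h2
  linarith

theorem unit_case (hprof : SPROF) (hsa : SA) (hsv : SSV) (hpic : SPIC) (htest : STEST)
    (hpolya : SPOLYA) (hthr : STHR) (hd : 1 ≤ d) {z : ℝ} (hz : FirstZero ((d : ℝ) / 2) z)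
    {y0 q : ℝ} (hy0 : 0 < y0) (hy1 : y0 < 1) (hq : 1 < q)
    (h1 : 2 / ((d : ℝ) + 2) * (Real.log (1 - y0) /
      Real.log (1 - y0 / (1 / F ((d : ℝ) / 2 + 1) z ^ 2))) ≤ q)
    (h2 : 1 + Real.log ((d : ℝ) * ((d : ℝ) + 2) / z) /
      (-Real.log (1 - y0 / (1 / F ((d : ℝ) / 2 + 1) z ^ 2))) ≤ q)
    {Ω : Set (EuclideanSpace ℝ (Fin d))} (ho : IsOpen Ω) (hne : Ω.Nonempty)
    (hΩ : volume Ω = volume (ball (0 : EuclideanSpace ℝ (Fin d)) 1)) :
    lam Ω * (tor Ω) ^ q ≤ lam (ball (0 : EuclideanSpace ℝ (Fin d)) 1) *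
      (tor (ball (0 : EuclideanSpace ℝ (Fin d)) 1)) ^ q := by
  obtain ⟨φ, W, h⟩ := hprof d hd z hz
  have hzp := h.zpos
  have hlp := h.lpos
  have hlz := h.lez
  set l := z * F ((d : ℝ) / 2 + 1) z with hl
  have hF : 0 < F ((d : ℝ) / 2 + 1) z := pos_of_mul_pos_right hlp hzp.le
  have hG : (z / l) ^ 2 = 1 / F ((d : ℝ) / 2 + 1) z ^ 2 := by
    rw [hl]
    field_simp
  have hG1 : 1 ≤ (z / l) ^ 2 := one_le_pow₀ ((one_le_div hlp).2 hlz)
  obtain ⟨hT, hT0, hA⟩ := hsa d z l φ W hd h Ω ho hne hΩ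
  have hP := hpolya d hd Ω ho hne (by rw [hΩ]; exact measure_ball_lt_top)
  have hw : (volume Ω).toReal = w d := by rw [hΩ]; rfl
  rw [hw] at hP
  rw [← hG] at h1 h2
  have h3 := hthr d z ((z / l) ^ 2) y0 q (lam Ω) (tor Ω) hd hzp hG1 hy0 hy1 hP.1 hT0 hT hq hA
    hP.2 h1 h2
  refine h3.trans ?_
  have h4 := lam_ball_ge hpic hd hz
  have h5 := tor_ball_ge hsv htest hd
  have h6 : TB d ^ q ≤ (tor (ball (0 : EuclideanSpace ℝ (Fin d)) 1)) ^ q :=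
    Real.rpow_le_rpow (TB_pos hd).le h5 (by linarith)
  exact mul_le_mul h4 h6 (Real.rpow_nonneg (TB_pos hd).le _) (hzp.le.trans h4)

theorem final (hprof : SPROF) (hsa : SA) (hsv : SSV) (hpic : SPIC) (htest : STEST)
    (hpolya : SPOLYA) (hthr : STHR) (hsc : SSCALE) (hd : 1 ≤ d) {z : ℝ}
    (hz : FirstZero ((d : ℝ) / 2) z)
    {y0 q : ℝ} (hy0 : 0 < y0) (hy1 : y0 < 1) (hq : 1 < q)
    (h1 : 2 / ((d : ℝ) + 2) * (Real.log (1 - y0) /
      Real.log (1 - y0 / (1 / F ((d : ℝ) / 2 + 1) z ^ 2))) ≤ q)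
    (h2 : 1 + Real.log ((d : ℝ) * ((d : ℝ) + 2) / z) /
      (-Real.log (1 - y0 / (1 / F ((d : ℝ) / 2 + 1) z ^ 2))) ≤ q)
    {Ω : Set (EuclideanSpace ℝ (Fin d))} (ho : IsOpen Ω) (hne : Ω.Nonempty)
    (hfin : volume Ω < ⊤) :
    Fq q Ω ≤ Fq q (ball (0 : EuclideanSpace ℝ (Fin d)) 1) := by
  have hd0 : (0 : ℝ) < d := by exact_mod_cast hd
  have hvpos : 0 < (volume Ω).toReal := ENNReal.toReal_pos (ho.measure_pos _ hne).ne' hfin.ne
  set v := (volume Ω).toReal with hv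
  have hw := w_pos d
  set s : ℝ := (w d / v) ^ ((d : ℝ)⁻¹) with hs
  have hs0 : 0 < s := Real.rpow_pos_of_pos (div_pos hw hvpos) _
  have hsd : s ^ d = w d / v := by
    rw [hs, ← Real.rpow_natCast, ← Real.rpow_mul (div_pos hw hvpos).le,
      inv_mul_cancel₀ hd0.ne', Real.rpow_one]
  have hvol : volume (s • Ω) = volume (ball (0 : EuclideanSpace ℝ (Fin d)) 1) := by
    rw [Measure.addHaar_smul, finrank_euclideanSpace, Fintype.card_fin,
      abs_of_pos (pow_pos hs0 d), hsd]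
    have e1 : volume Ω = ENNReal.ofReal v := (ENNReal.ofReal_toReal hfin.ne).symm
    have e2 : volume (ball (0 : EuclideanSpace ℝ (Fin d)) 1) = ENNReal.ofReal (w d) :=
      (ENNReal.ofReal_toReal measure_ball_lt_top.ne).symm
    rw [e1, e2, ← ENNReal.ofReal_mul (div_pos hw hvpos).le, div_mul_cancel₀ _ hvpos.ne']
  have h3 := unit_case hprof hsa hsv hpic htest hpolya hthr hd hz hy0 hy1 hq h1 h2
    (ho.smul₀ hs0.ne') (hne.smul_set (a := s)) hvol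
  obtain ⟨e1, e2⟩ := hsc d s hs0 Ω
  rw [e1, e2] at h3
  unfold Fq
  have hball : (volume (ball (0 : EuclideanSpace ℝ (Fin d)) 1)).toReal = w d := rfl
  rw [hball, ← hv]
  set α := (q * ((d : ℝ) + 2) - 2) / (d : ℝ) with hα
  have ht : 0 ≤ tor Ω := by
    have : 0 ≤ s ^ (d + 2) * tor Ω := by
      rw [← e2]
      refine Real.sSup_nonneg ?_
      rintro r ⟨u, -, -, -, -, rfl⟩
      exact div_nonneg (sq_nonneg _) (integral_nonneg fun x => sq_nonneg _)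
    exact nonneg_of_mul_nonneg_right this (by positivity)
  have hvs : v = w d / s ^ d := by
    rw [hsd]
    field_simp
  have hva : v ^ α = w d ^ α / s ^ (q * ((d : ℝ) + 2) - 2) := by
    rw [hvs, Real.div_rpow hw.le (by positivity), ← Real.rpow_natCast, ← Real.rpow_mul hs0.le]
    congr 2
    rw [hα]
    field_simp
  have hsq : (s ^ (d + 2) * tor Ω) ^ q = s ^ (q * ((d : ℝ) + 2)) * tor Ω ^ q := by
    rw [Real.mul_rpow (by positivity) ht, ← Real.rpow_natCast, ← Real.rpow_mul hs0.le]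
    congr 2
    push_cast
    ring
  have hs2 : s ^ (q * ((d : ℝ) + 2) - 2) = s ^ (q * ((d : ℝ) + 2)) / s ^ 2 := by
    rw [Real.rpow_sub hs0]
    congr 1
    exact Real.rpow_natCast s 2
  have hwa : 0 < w d ^ α := Real.rpow_pos_of_pos hw _
  rw [hsq] at h3
  have hsp : 0 < s ^ (q * ((d : ℝ) + 2)) := Real.rpow_pos_of_pos hs0 _
  have hL : lam Ω * tor Ω ^ q / v ^ α =
      (lam Ω / s ^ 2 * (s ^ (q * ((d : ℝ) + 2)) * tor Ω ^ q)) / w d ^ α := by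
    rw [hva, hs2]
    field_simp
  rw [hL]
  exact div_le_div_of_nonneg_right h3 hwa.le

end Pool.Agent.W250.RKJ
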