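import Pool.Agent.W250.RKJ.Stm

set_option autoImplicit false

/-!
# Basic facts on the distribution function, and the layer cake formula
-/

open MeasureTheory Metric Set

namespace Pool.Agent.W250.RKJ

variable {d : ℕ} {u : EuclideanSpace ℝ (Fin d) → ℝ}

lemma w_pos (d : ℕ) : 0 < w d := by
  unfold w
  exact ENNReal.toReal_pos (measure_ball_pos _ _ one_pos).ne' measure_ball_lt_top.ne

lemma TB_pos {d : ℕ} (hd : 1 ≤ d) : 0 < TB d := by
  have h1 := w_pos d
  have h2 : (0 : ℝ) < d := by exact_mod_cast hd
  unfold TB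
  positivity

lemma vol_pos_lt_top (_hu : Continuous u) (hc : HasCompactSupport u) {t : ℝ} (ht : 0 ≤ t) :
    volume {x | t < u x} < ⊤ := by
  refine lt_of_le_of_lt (measure_mono ?_) (hc.isCompact.measure_lt_top (μ := volume))
  intro x hx
  refine subset_tsupport u ?_
  simp only [mem_ofPred_eq] at hx
  simp only [Function.mem_support]
  linarith

lemma isOpen_lt (hu : Continuous u) (t : ℝ) : IsOpen {x | t < u x} :=
  _root_.isOpen_lt continuous_const hu

lemma mu_nonneg (u : EuclideanSpace ℝ (Fin d) → ℝ) (t : ℝ) : 0 ≤ mu u t := ENNReal.toReal_nonneg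

lemma mu_anti (hu : Continuous u) (hc : HasCompactSupport u) {s t : ℝ} (hs : 0 ≤ s)
    (hst : s ≤ t) : mu u t ≤ mu u s := by
  unfold mu
  refine ENNReal.toReal_mono (vol_pos_lt_top hu hc hs).ne (measure_mono ?_)
  intro x hx
  simp only [mem_ofPred_eq] at hx ⊢
  linarith

lemma mu_max_anti (hu : Continuous u) (hc : HasCompactSupport u) :
    Antitone fun t => mu u (max t 0) := by
  intro s t hst
  exact mu_anti hu hc (le_max_right _ _) (max_le_max_right 0 hst)

lemma rad_nonneg (u : EuclideanSpace ℝ (Fin d) → ℝ) (t : ℝ) : 0 ≤ rad u t :=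
  Real.rpow_nonneg (div_nonneg (mu_nonneg u t) (w_pos d).le) _

lemma rad_anti (hu : Continuous u) (hc : HasCompactSupport u) {s t : ℝ} (hs : 0 ≤ s)
    (hst : s ≤ t) : rad u t ≤ rad u s := by
  unfold rad
  refine Real.rpow_le_rpow (div_nonneg (mu_nonneg u t) (w_pos d).le) ?_ (by positivity)
  exact div_le_div_of_nonneg_right (mu_anti hu hc hs hst) (w_pos d).le

lemma rad_le_one (hu : Continuous u) (hc : HasCompactSupport u) (h : mu u 0 ≤ w d) {t : ℝ}
    (ht : 0 ≤ t) : rad u t ≤ 1 := by
  unfold rad
  refine Real.rpow_le_one (div_nonneg (mu_nonneg u t) (w_pos d).le) ?_ (by positivity)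
  rw [div_le_one (w_pos d)]
  exact (mu_anti hu hc le_rfl ht).trans h

lemma rad_max_anti (hu : Continuous u) (hc : HasCompactSupport u) :
    Antitone fun t => rad u (max t 0) := by
  intro s t hst
  exact rad_anti hu hc (le_max_right _ _) (max_le_max_right 0 hst)

/-- measurability of `rad u (u x)` on `{u > 0}` -/
lemma rad_aemeas (hu : Continuous u) (hc : HasCompactSupport u) :
    AEStronglyMeasurable (fun x => rad u (u x)) (volume.restrict {x | 0 < u x}) := by
  have h1 : Measurable fun x => rad u (max (u x) 0) :=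
    (rad_max_anti hu hc).measurable.comp hu.measurable
  refine h1.aestronglyMeasurable.congr ?_
  filter_upwards [ae_restrict_mem (isOpen_lt hu 0).measurableSet] with x hx
  have hx' : 0 < u x := hx
  rw [max_eq_left hx'.le]

/-- layer cake -/
lemma layer (hu : Continuous u) (hc : HasCompactSupport u) (q : ℝ → ℝ) (hq : Continuous q)
    (hq0 : ∀ t, 0 ≤ q t) :
    ∫ t in Ioi (0 : ℝ), q t * mu u t = ∫ x in {x | 0 < u x}, (∫ t in (0 : ℝ)..u x, q t) := by
  have hP : MeasurableSet {x | 0 < u x} := (isOpen_lt hu 0).measurableSet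
  have hQc : Continuous fun v : ℝ => ∫ t in (0 : ℝ)..v, q t :=
    intervalIntegral.continuous_primitive (fun a b => hq.intervalIntegrable a b) 0
  have hR : ∫ x in {x | 0 < u x}, (∫ t in (0 : ℝ)..u x, q t) =
      (∫⁻ x in {x | 0 < u x}, ENNReal.ofReal (∫ t in (0 : ℝ)..u x, q t)).toReal := by
    refine integral_eq_lintegral_of_nonneg_ae ?_ (hQc.comp hu).aestronglyMeasurable
    filter_upwards [ae_restrict_mem hP] with x hx
    have hx' : 0 < u x := hx
    exact intervalIntegral.integral_nonneg hx'.le fun t _ => hq0 t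
  have hL : ∫ t in Ioi (0 : ℝ), q t * mu u t =
      (∫⁻ t in Ioi (0 : ℝ), ENNReal.ofReal (q t * mu u t)).toReal := by
    refine integral_eq_lintegral_of_nonneg_ae ?_ ?_
    · exact Filter.Eventually.of_forall fun t => mul_nonneg (hq0 t) (mu_nonneg u t)
    · have h1 : Measurable fun t => q t * mu u (max t 0) :=
        hq.measurable.mul (mu_max_anti hu hc).measurable
      refine h1.aestronglyMeasurable.congr ?_
      filter_upwards [ae_restrict_mem measurableSet_Ioi] with t ht
      rw [max_eq_left (le_of_lt ht)]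
  rw [hR, hL]
  congr 1
  have h := lintegral_comp_eq_lintegral_meas_lt_mul (f := u) (g := q)
    (volume.restrict {x | 0 < u x}) ?_ hu.measurable.aemeasurable
    (fun t _ => hq.intervalIntegrable 0 t) (Filter.Eventually.of_forall hq0)
  · rw [h]
    refine setLIntegral_congr_fun measurableSet_Ioi fun t ht => ?_
    have ht' : (0 : ℝ) < t := ht
    have e1 : volume.restrict {x | 0 < u x} {a | t < u a} = volume {a | t < u a} := by
      rw [Measure.restrict_apply (isOpen_lt hu t).measurableSet]
      congr 1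
      ext x
      simp only [mem_inter_iff, mem_ofPred_eq]
      constructor
      · exact fun h => h.1
      · exact fun h => ⟨h, ht'.trans h⟩
    rw [e1, ENNReal.ofReal_mul (hq0 t), mul_comm]
    unfold mu
    rw [ENNReal.ofReal_toReal (vol_pos_lt_top hu hc ht'.le).ne]
  · filter_upwards [ae_restrict_mem hP] with x hx
    exact le_of_lt hx

end Pool.Agent.W250.RKJ
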