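import Pool.Agent.W250.RKJ.Env

set_option autoImplicit false

/-!
# The main inequality
-/

open MeasureTheory Metric Set

namespace Pool.Agent.W250.RKJ

variable {d : ℕ} {z l : ℝ} {φ W : ℝ → ℝ}

lemma psi_scale (h : Prof d z l φ W) {c : ℝ} (hc : 0 < c) (v : ℝ) :
    ∫ t in (0 : ℝ)..v, (z ^ 2 - (deriv φ (c * t)) ^ 2) =
      z ^ 2 * v - 1 / c * ∫ t in (0 : ℝ)..c * v, (deriv φ t) ^ 2 := by
  have hcd := h.contd
  have i1 : IntervalIntegrable (fun _ : ℝ => z ^ 2) volume 0 v :=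
    continuous_const.intervalIntegrable _ _
  have i2 : IntervalIntegrable (fun t : ℝ => (deriv φ (c * t)) ^ 2) volume 0 v :=
    ((hcd.comp (continuous_const.mul continuous_id)).pow 2).intervalIntegrable _ _
  rw [intervalIntegral.integral_sub i1 i2]
  have e := intervalIntegral.integral_comp_mul_left (a := 0) (b := v)
    (fun s : ℝ => (deriv φ s) ^ 2) hc.ne'
  rw [e, mul_zero, intervalIntegral.integral_const, smul_eq_mul, smul_eq_mul]
  ring

lemma intOn_bdd {s : Set (EuclideanSpace ℝ (Fin d))} {f : EuclideanSpace ℝ (Fin d) → ℝ}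
    (hsm : MeasurableSet s) (hs : volume s ≠ ⊤) (hm : AEStronglyMeasurable f (volume.restrict s))
    (M : ℝ) (h : ∀ x ∈ s, ‖f x‖ ≤ M) : IntegrableOn f s := by
  have : IsFiniteMeasure (volume.restrict s) :=
    ⟨by rw [Measure.restrict_apply_univ]; exact lt_top_iff_ne_top.2 hs⟩
  refine Integrable.of_bound hm M ?_
  filter_upwards [ae_restrict_mem hsm] with x hx
  exact h x hx

theorem main (hiso : SISO) (hrank : SRANK) (hpol : SPOLAR) : SMAIN := by
  intro d z l φ W hd h c hc u hu1 hcs hmu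
  have hc0 : 0 < c := by linarith
  have hd0 : (0 : ℝ) < d := by exact_mod_cast hd
  have hu : Continuous u := hu1.continuous
  have hz := h.zpos
  have hl := h.lpos
  have hlz := h.lez
  have hcd := h.contd
  have hφc : Continuous φ := h.c1.continuous
  have hDc : Continuous fun x => ‖fderiv ℝ u x‖ := (hu1.continuous_fderiv one_ne_zero).norm
  have hDs : HasCompactSupport fun x => ‖fderiv ℝ u x‖ := (hcs.fderiv ℝ).norm
  set P : Set (EuclideanSpace ℝ (Fin d)) := {x | 0 < u x} with hP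
  have hPm : MeasurableSet P := (isOpen_lt hu 0).measurableSet
  have hPf : volume P ≠ ⊤ := (vol_pos_lt_top hu hcs le_rfl).ne
  -- integrable pieces
  have hD2c : Continuous fun x => ‖fderiv ℝ u x‖ ^ 2 := hDc.pow 2
  have hD2s : HasCompactSupport fun x => ‖fderiv ℝ u x‖ ^ 2 :=
    hDs.comp_left (g := fun r : ℝ => r ^ 2) (by norm_num)
  have I1 : Integrable u := hu.integrable_of_hasCompactSupport hcs
  have I2 : Integrable fun x => ‖fderiv ℝ u x‖ ^ 2 := hD2c.integrable_of_hasCompactSupport hD2s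
  have hcu : Continuous fun x => deriv φ (c * u x) := hcd.comp (continuous_const.mul hu)
  have I3 : Integrable fun x => (deriv φ (c * u x)) ^ 2 * ‖fderiv ℝ u x‖ ^ 2 :=
    ((hcu.pow 2).mul hD2c).integrable_of_hasCompactSupport (hD2s.mul_left)
  have I4 : Integrable fun x => (φ (c * u x)) ^ 2 := by
    refine Continuous.integrable_of_hasCompactSupport ?_ ?_
    · exact (hφc.comp (continuous_const.mul hu)).pow 2
    · exact hcs.comp_left (g := fun r : ℝ => (φ (c * r)) ^ 2) (by simp [h.zero])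
  -- the integrand
  set f : EuclideanSpace ℝ (Fin d) → ℝ := fun x =>
    z ^ 2 * (2 * u x - ‖fderiv ℝ u x‖ ^ 2) + (deriv φ (c * u x)) ^ 2 * ‖fderiv ℝ u x‖ ^ 2 -
      z / c * (φ (c * u x)) ^ 2 with hf
  have If1 : Integrable fun x => z ^ 2 * (2 * u x - ‖fderiv ℝ u x‖ ^ 2) :=
    ((I1.const_mul 2).sub I2).const_mul _
  have If : Integrable f := (If1.add I3).sub (I4.const_mul _)
  have hLHS : z ^ 2 * (2 * (∫ x, u x) - (∫ x, ‖fderiv ℝ u x‖ ^ 2)) +
      (∫ x, (deriv φ (c * u x)) ^ 2 * ‖fderiv ℝ u x‖ ^ 2) -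
      z / c * (∫ x, (φ (c * u x)) ^ 2) = ∫ x, f x := by
    have e1 : ∫ x, f x = (∫ x, (z ^ 2 * (2 * u x - ‖fderiv ℝ u x‖ ^ 2) +
        (deriv φ (c * u x)) ^ 2 * ‖fderiv ℝ u x‖ ^ 2)) - ∫ x, z / c * (φ (c * u x)) ^ 2 :=
      integral_sub (If1.add I3) (I4.const_mul _)
    rw [e1, integral_add If1 I3, integral_const_mul, integral_const_mul,
      integral_sub (I1.const_mul 2) I2, integral_const_mul]
  rw [hLHS, ← integral_add_compl hPm If]
  have hneg : ∫ x in Pᶜ, f x ≤ 0 := by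
    refine setIntegral_nonpos hPm.compl fun x hx => ?_
    have hx' : u x ≤ 0 := not_lt.1 hx
    have h1 : deriv φ (c * u x) = l := h.left _ (mul_nonpos_of_nonneg_of_nonpos hc0.le hx')
    simp only [hf, h1]
    have h2 : 0 ≤ z / c * (φ (c * u x)) ^ 2 := by positivity
    have h3 : (l ^ 2 - z ^ 2) * ‖fderiv ℝ u x‖ ^ 2 ≤ 0 :=
      mul_nonpos_of_nonpos_of_nonneg (by nlinarith) (by positivity)
    have h4 : z ^ 2 * u x ≤ 0 := mul_nonpos_of_nonneg_of_nonpos (by positivity) hx'
    nlinarith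
  -- the weight
  set q : ℝ → ℝ := fun t => z ^ 2 - (deriv φ (c * t)) ^ 2 with hq
  have hqc : Continuous q :=
    continuous_const.sub ((hcd.comp (continuous_const.mul continuous_id)).pow 2)
  have hqa : Antitone q := by
    intro s t hst
    have h1 := h.mono (mul_le_mul_of_nonneg_left hst hc0.le)
    have h2 := h.lge (c * s)
    simp only [hq]
    nlinarith
  have hq0 : ∀ t, 0 ≤ q t := by
    intro t
    have h2 := h.lge (c * t)
    have h3 := h.le (c * t)
    simp only [hq]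
    nlinarith
  have hqle : ∀ t, q t ≤ z ^ 2 := fun t => by simp only [hq]; nlinarith [sq_nonneg (deriv φ (c * t))]
  have hS := hiso d hd u hu1 hcs q hqc hqa hq0
  rw [layer hu hcs q hqc hq0] at hS
  -- bounds
  have hrm := rad_aemeas hu hcs
  have hr1 : ∀ x ∈ P, rad u (u x) ≤ 1 := fun x hx => rad_le_one hu hcs hmu (le_of_lt hx)
  have hr0 : ∀ x, 0 ≤ rad u (u x) := fun x => rad_nonneg u _
  have hqm : AEStronglyMeasurable (fun x => q (u x)) (volume.restrict P) :=
    (hqc.comp hu).aestronglyMeasurable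
  obtain ⟨M, hM⟩ := hDs.exists_bound_of_continuous hDc
  have hM' : ∀ x, ‖fderiv ℝ u x‖ ≤ M := fun x => by
    have := hM x
    rwa [Real.norm_eq_abs, abs_of_nonneg (norm_nonneg _)] at this
  have hθm : AEStronglyMeasurable (fun x => rad u (u x) / d) (volume.restrict P) := by
    simpa only [div_eq_mul_inv] using hrm.mul_const ((d : ℝ)⁻¹)
  have hθ0 : ∀ x, 0 ≤ rad u (u x) / d := fun x => div_nonneg (hr0 x) hd0.le
  have hθ1 : ∀ x ∈ P, rad u (u x) / d ≤ 1 / d := fun x hx =>
    div_le_div_of_nonneg_right (hr1 x hx) hd0.le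
  have hM0 : 0 ≤ M := (norm_nonneg _).trans (hM' 0)
  have J1 : IntegrableOn (fun x => q (u x) * (rad u (u x) / d) * ‖fderiv ℝ u x‖) P := by
    refine intOn_bdd hPm hPf ((hqm.mul hθm).mul hDc.aestronglyMeasurable) (z ^ 2 * (1 / d) * M)
      fun x hx => ?_
    rw [Real.norm_eq_abs, abs_of_nonneg (mul_nonneg (mul_nonneg (hq0 _) (hθ0 _)) (norm_nonneg _))]
    exact mul_le_mul (mul_le_mul (hqle _) (hθ1 x hx) (hθ0 x) (by positivity)) (hM' x)
      (norm_nonneg _) (by positivity)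
  have J2 : IntegrableOn (fun x => q (u x) * (rad u (u x) / d) ^ 2) P := by
    refine intOn_bdd hPm hPf (hqm.mul (hθm.pow 2)) (z ^ 2 * (1 / d) ^ 2) fun x hx => ?_
    rw [Real.norm_eq_abs, abs_of_nonneg (mul_nonneg (hq0 _) (sq_nonneg _))]
    exact mul_le_mul (hqle _) (pow_le_pow_left₀ (hθ0 x) (hθ1 x hx) 2) (sq_nonneg _)
      (by positivity)
  have hQc : Continuous fun v : ℝ => ∫ t in (0 : ℝ)..v, q t :=
    intervalIntegral.continuous_primitive (fun a b => hqc.intervalIntegrable a b) 0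
  have J3 : Integrable (fun x => ∫ t in (0 : ℝ)..u x, q t) := by
    refine (hQc.comp hu).integrable_of_hasCompactSupport ?_
    exact hcs.comp_left (g := fun v : ℝ => ∫ t in (0 : ℝ)..v, q t) (by simp)
  have J4 : IntegrableOn (fun x => 2 * z ^ 2 * u x - z / c * (φ (c * u x)) ^ 2 +
      q (u x) * (rad u (u x) / d) ^ 2) P :=
    ((I1.const_mul _).sub (I4.const_mul _)).integrableOn.add J2
  have step1 : ∫ x in P, f x ≤ ∫ x in P, ((2 * z ^ 2 * u x - z / c * (φ (c * u x)) ^ 2 +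
      q (u x) * (rad u (u x) / d) ^ 2) -
        2 * (q (u x) * (rad u (u x) / d) * ‖fderiv ℝ u x‖)) := by
    refine setIntegral_mono_on If.integrableOn (J4.sub (J1.const_mul 2)) hPm fun x hx => ?_
    have e : f x = 2 * z ^ 2 * u x - z / c * (φ (c * u x)) ^ 2 -
        q (u x) * ‖fderiv ℝ u x‖ ^ 2 := by
      simp only [hf, hq]
      ring
    rw [e]
    nlinarith [mul_nonneg (hq0 (u x)) (sq_nonneg (‖fderiv ℝ u x‖ - rad u (u x) / d))]
  have step2 : ∫ x in P, ((2 * z ^ 2 * u x - z / c * (φ (c * u x)) ^ 2 +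
      q (u x) * (rad u (u x) / d) ^ 2) -
        2 * (q (u x) * (rad u (u x) / d) * ‖fderiv ℝ u x‖)) ≤
      ∫ x in P, ((2 * z ^ 2 * u x - z / c * (φ (c * u x)) ^ 2 +
      q (u x) * (rad u (u x) / d) ^ 2) - 2 * ∫ t in (0 : ℝ)..u x, q t) := by
    rw [integral_sub J4 (J1.const_mul 2), integral_sub J4 (J3.integrableOn.const_mul 2),
      integral_const_mul, integral_const_mul]
    linarith
  have hGm : AEStronglyMeasurable (fun x => GG d z c φ W (rad u (u x))) (volume.restrict P) :=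
    (GG_cont h c).comp_aestronglyMeasurable hrm
  have J5 : IntegrableOn (fun x => GG d z c φ W (rad u (u x))) P := by
    refine intOn_bdd hPm hPf hGm (GG d z c φ W 1) fun x hx => ?_
    rw [Real.norm_eq_abs, abs_of_nonneg (GG_nonneg h hc0 (hr0 x))]
    exact GG_mono h hc0 (mem_Ici.2 (hr0 x)) (mem_Ici.2 zero_le_one) (hr1 x hx)
  have step3 : ∫ x in P, ((2 * z ^ 2 * u x - z / c * (φ (c * u x)) ^ 2 +
      q (u x) * (rad u (u x) / d) ^ 2) - 2 * ∫ t in (0 : ℝ)..u x, q t) ≤
      ∫ x in P, GG d z c φ W (rad u (u x)) := by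
    refine setIntegral_mono_on (J4.sub (J3.integrableOn.const_mul 2)) J5 hPm fun x hx => ?_
    have hx' : 0 < u x := hx
    refine le_trans (le_of_eq ?_) (br_le_GG h hc0 (hr0 x) (by positivity : 0 ≤ c * u x))
    have e := psi_scale h hc0 (u x)
    simp only [hq]
    rw [e]
    unfold br
    ring
  refine le_trans (add_le_add (step1.trans (step2.trans step3)) hneg) ?_
  rw [add_zero]
  refine (hrank d hd u hu1 hcs hmu _ (GG_mono h hc0) fun s hs => GG_nonneg h hc0 hs).trans ?_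
  exact (int_GG hpol h hd hc).le

end Pool.Agent.W250.RKJ
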