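import Pool.Agent.W250.RKJ.Main

set_option autoImplicit false

/-!
# The Saint-Venant inequality
-/

open MeasureTheory Metric Set

namespace Pool.Agent.W250.RKJ

lemma int_sq (hpol : SPOLAR) {d : ℕ} (hd : 1 ≤ d) :
    ∫ x in ball (0 : EuclideanSpace ℝ (Fin d)) 1, (‖x‖ / d) ^ 2 = TB d := by
  have hd0 : (0 : ℝ) < d := by exact_mod_cast hd
  rw [hpol d hd (fun s => (s / d) ^ 2) (by fun_prop)]
  have e1 : ∀ s : ℝ, (s / d) ^ 2 * s ^ (d - 1) = 1 / (d : ℝ) ^ 2 * s ^ (d + 1) := by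
    intro s
    have h2 : s ^ (d + 1) = s ^ 2 * s ^ (d - 1) := by
      rw [← pow_add]
      congr 1
      omega
    rw [h2, div_pow]
    ring
  simp_rw [e1]
  rw [intervalIntegral.integral_const_mul, integral_pow, one_pow,
    zero_pow (by omega : d + 1 + 1 ≠ 0), TB]
  push_cast
  field_simp
  ring

theorem sv (hiso : SISO) (hrank : SRANK) (hpol : SPOLAR) : SSV := by
  intro d hd u hu1 hcs hmu
  have hd0 : (0 : ℝ) < d := by exact_mod_cast hd
  have hu : Continuous u := hu1.continuous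
  have hDc : Continuous fun x => ‖fderiv ℝ u x‖ := (hu1.continuous_fderiv one_ne_zero).norm
  have hDs : HasCompactSupport fun x => ‖fderiv ℝ u x‖ := (hcs.fderiv ℝ).norm
  set P : Set (EuclideanSpace ℝ (Fin d)) := {x | 0 < u x} with hP
  have hPm : MeasurableSet P := (isOpen_lt hu 0).measurableSet
  have hPf : volume P ≠ ⊤ := (vol_pos_lt_top hu hcs le_rfl).ne
  have I1 : Integrable u := hu.integrable_of_hasCompactSupport hcs
  have hD2c : Continuous fun x => ‖fderiv ℝ u x‖ ^ 2 := hDc.pow 2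
  have hD2s : HasCompactSupport fun x => ‖fderiv ℝ u x‖ ^ 2 :=
    hDs.comp_left (g := fun r : ℝ => r ^ 2) (by norm_num)
  have I2 : Integrable fun x => ‖fderiv ℝ u x‖ ^ 2 := hD2c.integrable_of_hasCompactSupport hD2s
  have h1 : ∫ x, u x ≤ ∫ x in P, u x := by
    rw [← integral_add_compl hPm I1]
    have : ∫ x in Pᶜ, u x ≤ 0 := setIntegral_nonpos hPm.compl fun x hx => not_lt.1 hx
    linarith
  have hS := hiso d hd u hu1 hcs (fun _ => 1) continuous_const (fun _ _ _ => le_rfl)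
    (fun _ => zero_le_one)
  rw [layer hu hcs (fun _ => 1) continuous_const (fun _ => zero_le_one)] at hS
  simp only [intervalIntegral.integral_const, smul_eq_mul, mul_one, sub_zero, one_mul] at hS
  have hrm := rad_aemeas hu hcs
  have hr1 : ∀ x ∈ P, rad u (u x) ≤ 1 := fun x hx => rad_le_one hu hcs hmu (le_of_lt hx)
  have hr0 : ∀ x, 0 ≤ rad u (u x) := fun x => rad_nonneg u _
  obtain ⟨M, hM⟩ := hDs.exists_bound_of_continuous hDc
  have hM' : ∀ x, ‖fderiv ℝ u x‖ ≤ M := fun x => by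
    have := hM x
    rwa [Real.norm_eq_abs, abs_of_nonneg (norm_nonneg _)] at this
  have hθm : AEStronglyMeasurable (fun x => rad u (u x) / d) (volume.restrict P) := by
    simpa only [div_eq_mul_inv] using hrm.mul_const ((d : ℝ)⁻¹)
  have hθ0 : ∀ x, 0 ≤ rad u (u x) / d := fun x => div_nonneg (hr0 x) hd0.le
  have hθ1 : ∀ x ∈ P, rad u (u x) / d ≤ 1 / d := fun x hx =>
    div_le_div_of_nonneg_right (hr1 x hx) hd0.le
  have J1 : IntegrableOn (fun x => rad u (u x) / d * ‖fderiv ℝ u x‖) P := by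
    refine intOn_bdd hPm hPf (hθm.mul hDc.aestronglyMeasurable) (1 / d * M) fun x hx => ?_
    rw [Real.norm_eq_abs, abs_of_nonneg (mul_nonneg (hθ0 _) (norm_nonneg _))]
    exact mul_le_mul (hθ1 x hx) (hM' x) (norm_nonneg _) (by positivity)
  have J2 : IntegrableOn (fun x => (rad u (u x) / d) ^ 2) P := by
    refine intOn_bdd hPm hPf (hθm.pow 2) ((1 / d) ^ 2) fun x hx => ?_
    rw [Real.norm_eq_abs, abs_of_nonneg (sq_nonneg _)]
    exact pow_le_pow_left₀ (hθ0 x) (hθ1 x hx) 2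
  have h2 : 2 * ∫ x in P, rad u (u x) / d * ‖fderiv ℝ u x‖ ≤
      ∫ x in P, (‖fderiv ℝ u x‖ ^ 2 + (rad u (u x) / d) ^ 2) := by
    rw [← integral_const_mul]
    refine setIntegral_mono_on (J1.const_mul 2) (I2.integrableOn.add J2) hPm fun x _ => ?_
    nlinarith [sq_nonneg (‖fderiv ℝ u x‖ - rad u (u x) / d)]
  rw [integral_add I2.integrableOn J2] at h2
  have h3 : ∫ x in P, ‖fderiv ℝ u x‖ ^ 2 ≤ ∫ x, ‖fderiv ℝ u x‖ ^ 2 :=
    setIntegral_le_integral I2 (Filter.Eventually.of_forall fun x => sq_nonneg _)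
  have h4 : ∫ x in P, (rad u (u x) / d) ^ 2 ≤ TB d := by
    rw [← int_sq hpol hd]
    refine hrank d hd u hu1 hcs hmu (fun s => (s / d) ^ 2) ?_ fun s _ => sq_nonneg _
    intro s hs t ht hst
    have hs' : (0 : ℝ) ≤ s := hs
    exact pow_le_pow_left₀ (div_nonneg hs' hd0.le) (div_le_div_of_nonneg_right hst hd0.le) 2
  linarith

end Pool.Agent.W250.RKJ
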