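import Pool.Agent.W250.RKJ.Final
import Pool.Agent.W573.RKJ.F
import Pool.Agent.W573.RKJ.Prof
import Pool.Agent.W573.RKJ.Thr
import Pool.Agent.W573.RKJ.Rank
import Pool.Agent.W573.RKJ.Test
import Pool.Agent.W340.RKJ.BM
import Pool.Agent.W340.RKJ.Iso
import Pool.Agent.W12.RKJ.Num
import Pool.Agent.W12.RKJ.Num3

set_option autoImplicit false

/-!
# The explicit threshold
-/

open MeasureTheory Metric Set
open scoped Pointwise

namespace Pool.Agent.W250.RKJ

theorem hSF : SF := Pool.Agent.W573.RKJ.sf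
theorem hSPOS : SPOS := Pool.Agent.W573.RKJ.spos hSF
theorem hSEX : SEX := Pool.Agent.W573.RKJ.sex hSF hSPOS
theorem hSPROF : SPROF := Pool.Agent.W573.RKJ.prof hSF hSPOS
theorem hSISO : SISO := Pool.Agent.W340.RKJ.iso Pool.Agent.W340.RKJ.bm
theorem hSRANK : SRANK := Pool.Agent.W573.RKJ.rank
theorem hSPOLAR : SPOLAR := Pool.Agent.W573.RKJ.polar
theorem hSTEST : STEST := Pool.Agent.W573.RKJ.test hSPOLAR
theorem hSTHR : STHR := Pool.Agent.W573.RKJ.thr
theorem hSSV : SSV := sv hSISO hSRANK hSPOLAR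
theorem hSMAIN : SMAIN := main hSISO hSRANK hSPOLAR
theorem hSA : SA := sA hSSV hSMAIN
theorem hNUM2 : SNUM2 := Pool.Agent.W12.RKJ.num2
theorem hNUM3 : SNUM3 := Pool.Agent.W12.RKJ.num3 hSF

end Pool.Agent.W250.RKJ
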