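import Pool.Agent.W250.RKJ.Thm
import Pool.Agent.W12.RKJ.Scale

set_option autoImplicit false

open MeasureTheory Metric Set
open scoped Pointwise

namespace Pool.Agent.W250.RKJ

theorem hSSCALE : SSCALE := Pool.Agent.W12.RKJ.scale
theorem hSPOLYA : SPOLYA := Pool.Agent.W12.RKJ.polya

theorem general (hpic : SPIC) {d : ℕ} (hd : 1 ≤ d) {z : ℝ}
    (hz : FirstZero ((d : ℝ) / 2) z)
    {y0 q : ℝ} (hy0 : 0 < y0) (hy1 : y0 < 1) (hq : 1 < q)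
    (h1 : 2 / ((d : ℝ) + 2) * (Real.log (1 - y0) /
      Real.log (1 - y0 / (1 / F ((d : ℝ) / 2 + 1) z ^ 2))) ≤ q)
    (h2 : 1 + Real.log ((d : ℝ) * ((d : ℝ) + 2) / z) /
      (-Real.log (1 - y0 / (1 / F ((d : ℝ) / 2 + 1) z ^ 2))) ≤ q)
    {Ω : Set (EuclideanSpace ℝ (Fin d))} (ho : IsOpen Ω) (hne : Ω.Nonempty)
    (hfin : volume Ω < ⊤) :
    Fq q Ω ≤ Fq q (ball (0 : EuclideanSpace ℝ (Fin d)) 1) :=
  final hSPROF hSA hSSV hpic hSTEST hSPOLYA hSTHR hSSCALE hd hz hy0 hy1 hq h1 h2 ho hne hfin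

theorem plane (hpic : SPIC) {q : ℝ} (hq : 4 ≤ q)
    {Ω : Set (EuclideanSpace ℝ (Fin 2))} (ho : IsOpen Ω) (hne : Ω.Nonempty)
    (hfin : volume Ω < ⊤) :
    Fq q Ω ≤ Fq q (ball (0 : EuclideanSpace ℝ (Fin 2)) 1) := by
  obtain ⟨z, hz⟩ := hSEX 1 one_pos
  obtain ⟨h1, h2⟩ := hNUM2 z hz
  have e1 : ((2 : ℕ) : ℝ) / 2 = 1 := by norm_num
  have e2 : ((2 : ℕ) : ℝ) / 2 + 1 = 2 := by norm_num
  have e3 : ((2 : ℕ) : ℝ) + 2 = 4 := by norm_num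
  have e4 : ((2 : ℕ) : ℝ) * (((2 : ℕ) : ℝ) + 2) = 8 := by norm_num
  refine general hpic (d := 2) (by norm_num) (z := z) (by rw [e1]; exact hz) (y0 := 3 / 5)
    (by norm_num) (by norm_num) (by linarith) ?_ ?_ ho hne hfin
  · rw [e2, e3]
    linarith
  · rw [e2, e4]
    linarith

theorem space (hpic : SPIC) {q : ℝ} (hq : 15 / 2 ≤ q)
    {Ω : Set (EuclideanSpace ℝ (Fin 3))} (ho : IsOpen Ω) (hne : Ω.Nonempty)
    (hfin : volume Ω < ⊤) :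
    Fq q Ω ≤ Fq q (ball (0 : EuclideanSpace ℝ (Fin 3)) 1) := by
  obtain ⟨z, hz⟩ := hSEX (3 / 2) (by norm_num)
  obtain ⟨h1, h2⟩ := hNUM3 z hz
  have e1 : ((3 : ℕ) : ℝ) / 2 = 3 / 2 := by norm_num
  have e2 : ((3 : ℕ) : ℝ) / 2 + 1 = 5 / 2 := by norm_num
  have e3 : ((3 : ℕ) : ℝ) + 2 = 5 := by norm_num
  have e4 : ((3 : ℕ) : ℝ) * (((3 : ℕ) : ℝ) + 2) = 15 := by norm_num
  refine general hpic (d := 3) (by norm_num) (z := z) (by rw [e1]; exact hz) (y0 := 7 / 10)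
    (by norm_num) (by norm_num) (by linarith) ?_ ?_ ho hne hfin
  · rw [e2, e3]
    linarith
  · rw [e2, e4]
    linarith

end Pool.Agent.W250.RKJ
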